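import Mathlib

/-!
# A graceful bipartite graph without near alpha-valuation

The crown graph `K_{5,5}` minus a perfect matching is connected, bipartite, 4-regular and has
20 edges.  It has a beta-valuation, but it has no near alpha-valuation: in a near alpha-valuation
the sum of the edge labels is a signed sum of `deg v * b v`, hence divisible by 4, while the sum
of the edge labels is `1 + 2 + ... + 20 = 210`.
-/

namespace Pool.Agent.Results.MP_cfde94_co.CrownGraph

open SimpleGraph

/-- The label `|b u - b v|` of the edge `{u, v}`. -/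
def edgeLabel {V : Type*} (b : V → ℕ) : Sym2 V → ℕ :=
  Sym2.lift ⟨fun u v => ((b u : ℤ) - (b v : ℤ)).natAbs, fun u v => by
    show ((b u : ℤ) - (b v : ℤ)).natAbs = ((b v : ℤ) - (b u : ℤ)).natAbs
    omega⟩

/-- `b` is a beta-valuation (graceful labelling) of `G`: with `n` the number of edges of `G`, the
map `b` is injective with values in `{0, ..., n}`, and the edge labels are exactly `1, ..., n`,
each occurring once. -/
def IsBetaValuation {V : Type*} (G : SimpleGraph V) (b : V → ℕ) : Prop :=
  Function.Injective b ∧ (∀ v, b v ≤ G.edgeSet.ncard) ∧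
    Set.BijOn (edgeLabel b) G.edgeSet (Set.Icc 1 G.edgeSet.ncard)

/-- `b` is a near alpha-valuation of `G`: a beta-valuation for which `V` can be partitioned into
`S` (small) and its complement (large) such that each vertex of `S` has a smaller label than all
its neighbours and each vertex outside `S` has a larger label than all its neighbours. -/
def IsNearAlphaValuation {V : Type*} (G : SimpleGraph V) (b : V → ℕ) : Prop :=
  IsBetaValuation G b ∧ ∃ S : Set V,
    (∀ v ∈ S, ∀ u, G.Adj v u → b v < b u) ∧ (∀ v ∉ S, ∀ u, G.Adj v u → b u < b v)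

/-- Boolean adjacency of the crown graph: `i < 5 ≤ j` are adjacent iff `j ≠ i + 5`. -/
def adjB (i j : Fin 10) : Bool :=
  (decide (i.val < 5) && decide (5 ≤ j.val) && decide (j.val ≠ i.val + 5)) ||
  (decide (j.val < 5) && decide (5 ≤ i.val) && decide (i.val ≠ j.val + 5))

/-- The crown graph: `K_{5,5}` minus a perfect matching. -/
def crown : SimpleGraph (Fin 10) where
  Adj i j := adjB i j = true
  symm := ⟨by decide⟩
  loopless := ⟨by decide⟩

instance : DecidableRel crown.Adj := fun i j => inferInstanceAs (Decidable (adjB i j = true))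

/-- a graceful labelling of the crown graph -/
def lab : Fin 10 → ℕ := ![0, 4, 15, 11, 6, 14, 17, 18, 19, 20]

theorem edgeFinset_card : crown.edgeFinset.card = 20 := by decide +kernel

theorem ncard_edgeSet : crown.edgeSet.ncard = 20 := by
  rw [← edgeFinset_card, ← coe_edgeFinset, Set.ncard_coe_finset]

theorem image_lab : crown.edgeFinset.image (edgeLabel lab) = Finset.Icc 1 20 := by
  decide +kernel

theorem lab_beta : IsBetaValuation crown lab := by
  refine ⟨by decide, ?_, ?_⟩
  · rw [ncard_edgeSet]; decide
  · rw [ncard_edgeSet]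
    have hinj : Set.InjOn (edgeLabel lab) (crown.edgeFinset : Set (Sym2 (Fin 10))) := by
      rw [← Finset.card_image_iff, image_lab, edgeFinset_card]; rfl
    rw [coe_edgeFinset] at hinj
    refine ⟨?_, hinj, ?_⟩
    · intro e he
      have : edgeLabel lab e ∈ crown.edgeFinset.image (edgeLabel lab) :=
        Finset.mem_image_of_mem _ (by rwa [mem_edgeFinset])
      rw [image_lab] at this
      simpa using this
    · intro k hk
      have : k ∈ crown.edgeFinset.image (edgeLabel lab) := by
        rw [image_lab]; simpa using hk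
      obtain ⟨e, he, hk'⟩ := Finset.mem_image.1 this
      exact ⟨e, by simpa using he, hk'⟩

theorem crown_connected : crown.Connected := by
  have h : ∀ i : Fin 10, crown.Reachable i 0 := by
    have key : ∀ i : Fin 10, i = 0 ∨ crown.Adj i 0 ∨ (∃ j, crown.Adj i j ∧ crown.Adj j 0) ∨
        (∃ j k, crown.Adj i j ∧ crown.Adj j k ∧ crown.Adj k 0) := by decide
    intro i
    rcases key i with h | h | ⟨j, h1, h2⟩ | ⟨j, k, h1, h2, h3⟩
    · rw [h]
    · exact h.reachable
    · exact h1.reachable.trans h2.reachable
    · exact h1.reachable.trans (h2.reachable.trans h3.reachable)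
  have : Nonempty (Fin 10) := ⟨0⟩
  exact ⟨fun i j => (h i).trans (h j).symm⟩

theorem crown_bipartite : crown.IsBipartite := by
  refine ⟨Coloring.mk (fun i => if i.val < 5 then 0 else 1) ?_⟩
  intro i j
  revert i j
  decide

/-- the pairs of the twenty edges of the crown graph -/
theorem sum_edges (f : Sym2 (Fin 10) → ℕ) : ∑ e ∈ crown.edgeFinset, f e =
    ∑ p ∈ (Finset.univ : Finset (Fin 10 × Fin 10)).filter
      (fun p => p.1.val < 5 ∧ 5 ≤ p.2.val ∧ p.2.val ≠ p.1.val + 5), f s(p.1, p.2) := by
  have h : crown.edgeFinset = ((Finset.univ : Finset (Fin 10 × Fin 10)).filter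
      (fun p => p.1.val < 5 ∧ 5 ≤ p.2.val ∧ p.2.val ≠ p.1.val + 5)).image
        (fun p => s(p.1, p.2)) := by decide +kernel
  rw [h, Finset.sum_image]
  intro p hp q hq hpq
  simp only [Finset.coe_filter, Set.mem_ofPred_eq, Finset.mem_univ, true_and] at hp hq
  simp only [Sym2.eq_iff] at hpq
  rcases hpq with ⟨h1, h2⟩ | ⟨h1, h2⟩
  · exact Prod.ext h1 h2
  · exfalso
    have := congrArg Fin.val h1
    omega

theorem no_near : ∀ b : Fin 10 → ℕ, ¬ IsNearAlphaValuation crown b := by
  rintro b ⟨⟨-, -, hbij⟩, S, hS1, hS2⟩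
  rw [ncard_edgeSet] at hbij
  -- the sum of all edge labels is 210
  have hsum : ∑ e ∈ crown.edgeFinset, edgeLabel b e = 210 := by
    have h1 : crown.edgeFinset.image (edgeLabel b) = Finset.Icc 1 20 := by
      apply Finset.coe_injective
      rw [Finset.coe_image, coe_edgeFinset, hbij.image_eq, Finset.coe_Icc]
    have h2 : ∑ k ∈ crown.edgeFinset.image (edgeLabel b), k
        = ∑ e ∈ crown.edgeFinset, edgeLabel b e := by
      rw [Finset.sum_image]
      rw [coe_edgeFinset]
      exact hbij.injOn
    rw [← h2, h1]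
    decide
  -- signed labels
  classical
  set g : Fin 10 → ℤ := fun v => if v ∈ S then -(b v : ℤ) else (b v : ℤ) with hg
  have hlab : ∀ i j : Fin 10, crown.Adj i j → (edgeLabel b s(i, j) : ℤ) = g i + g j := by
    intro i j hij
    have h0 : edgeLabel b s(i, j) = ((b i : ℤ) - (b j : ℤ)).natAbs := rfl
    rw [h0]
    by_cases hi : i ∈ S
    · have h1 := hS1 i hi j hij
      have hj : j ∉ S := fun hj => by
        have := hS1 j hj i hij.symm
        omega
      simp only [hg, if_pos hi, if_neg hj]
      omega
    · have h1 := hS2 i hi j hij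
      have hj : j ∈ S := by
        by_contra hj
        have := hS2 j hj i hij.symm
        omega
      simp only [hg, if_neg hi, if_pos hj]
      omega
  have hsum' : ((∑ e ∈ crown.edgeFinset, edgeLabel b e : ℕ) : ℤ) = 4 * ∑ v, g v := by
    rw [sum_edges]
    push_cast
    have h3 : ∀ p ∈ (Finset.univ : Finset (Fin 10 × Fin 10)).filter
      (fun p => p.1.val < 5 ∧ 5 ≤ p.2.val ∧ p.2.val ≠ p.1.val + 5),
        (edgeLabel b s(p.1, p.2) : ℤ) = g p.1 + g p.2 := by
      intro p hp
      apply hlab
      simp only [Finset.mem_filter, Finset.mem_univ, true_and] at hp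
      show adjB p.1 p.2 = true
      simp [adjB, hp.1, hp.2.1, hp.2.2]
    rw [Finset.sum_congr rfl h3]
    have h4 : (Finset.univ : Finset (Fin 10 × Fin 10)).filter
      (fun p => p.1.val < 5 ∧ 5 ≤ p.2.val ∧ p.2.val ≠ p.1.val + 5) =
      {(0,6),(0,7),(0,8),(0,9),(1,5),(1,7),(1,8),(1,9),(2,5),(2,6),(2,8),(2,9),
       (3,5),(3,6),(3,7),(3,9),(4,5),(4,6),(4,7),(4,8)} := by decide +kernel
    rw [h4]
    simp [Fin.sum_univ_succ]
    ring
  rw [hsum] at hsum'
  push_cast at hsum'
  omega

/-- There is a (connected) bipartite graph without isolated vertices that has a beta-valuation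
but no near alpha-valuation. -/
theorem result : ∃ (V : Type) (_ : Fintype V) (G : SimpleGraph V),
    G.Connected ∧ G.IsBipartite ∧ (∀ v, ∃ u, G.Adj v u) ∧
    (∃ b : V → ℕ, IsBetaValuation G b) ∧ ¬ ∃ b : V → ℕ, IsNearAlphaValuation G b :=
  ⟨Fin 10, inferInstance, crown, crown_connected, crown_bipartite, by decide,
    ⟨lab, lab_beta⟩, fun ⟨b, hb⟩ => no_near b hb⟩

end Pool.Agent.Results.MP_cfde94_co.CrownGraph
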